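import Mathlib

/-!
# MP_454c72_al: two Pascalian polynomials have no common nontrivial root
-/

namespace Pool.Agent.Results.MP_454c72_al.NoCommonNontrivialRoot

open Finset

/-- the Pascalian number `B(n,k) = binom(n, floor((n-k)/2))`. -/
def B (n k : ℕ) : ℕ := n.choose ((n - k) / 2)

/-- the value at `z` of the `n`th Pascalian polynomial `∑_{k ≤ n} B(n,k) z^(n-k)`. -/
noncomputable def P (n : ℕ) (z : ℂ) : ℂ := ∑ k ∈ range (n + 1), (B n k : ℂ) * z ^ (n - k)

lemma P_eq (n : ℕ) (z : ℂ) : P n z = ∑ j ∈ range (n + 1), (n.choose (j / 2) : ℂ) * z ^ j := by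
  unfold P B
  rw [← Finset.sum_range_reflect (fun j => (n.choose (j / 2) : ℂ) * z ^ j) (n + 1)]
  apply Finset.sum_congr rfl
  intro k hk
  have : n + 1 - 1 - k = n - k := by omega
  rw [this]

/-- the central coefficient -/
def b (n : ℕ) : ℕ := n.choose (n / 2)

lemma b_half (n : ℕ) : n.choose ((n + 1) / 2) = b n := by
  unfold b
  rcases Nat.even_or_odd' n with ⟨l, rfl | rfl⟩
  · congr 1
    omega
  · have h1 : (2 * l + 1 + 1) / 2 = l + 1 := by omega
    have h2 : (2 * l + 1) / 2 = l := by omega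
    rw [h1, h2]
    exact Nat.choose_symm_half l

lemma rec_P (n : ℕ) (z : ℂ) :
    P (n + 1) z = (1 + z ^ 2) * P n z + (b n : ℂ) * z ^ (n + 1) * (1 - z) := by
  rw [P_eq, P_eq]
  rw [Finset.sum_range_succ', Finset.sum_range_succ']
  have h1 : ∑ j ∈ range n, (((n + 1).choose ((j + 1 + 1) / 2) : ℕ) : ℂ) * z ^ (j + 1 + 1) =
      z ^ 2 * ∑ j ∈ range n, ((n.choose (j / 2) : ℕ) : ℂ) * z ^ j +
      ∑ j ∈ range n, ((n.choose ((j + 1 + 1) / 2) : ℕ) : ℂ) * z ^ (j + 1 + 1) := by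
    rw [Finset.mul_sum, ← Finset.sum_add_distrib]
    apply Finset.sum_congr rfl
    intro j _
    have : (j + 1 + 1) / 2 = j / 2 + 1 := by omega
    rw [this, Nat.choose_succ_succ]
    push_cast
    ring
  have h2 : ∑ j ∈ range (n + 2), ((n.choose (j / 2) : ℕ) : ℂ) * z ^ j =
      ∑ j ∈ range n, ((n.choose ((j + 1 + 1) / 2) : ℕ) : ℂ) * z ^ (j + 1 + 1) + z + 1 := by
    rw [Finset.sum_range_succ', Finset.sum_range_succ']
    simp
  have h3 : ∑ j ∈ range (n + 2), ((n.choose (j / 2) : ℕ) : ℂ) * z ^ j =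
      ∑ j ∈ range (n + 1), ((n.choose (j / 2) : ℕ) : ℂ) * z ^ j + (b n : ℂ) * z ^ (n + 1) := by
    rw [Finset.sum_range_succ, b_half]
  have h4 : ∑ j ∈ range (n + 1), ((n.choose (j / 2) : ℕ) : ℂ) * z ^ j =
      ∑ j ∈ range n, ((n.choose (j / 2) : ℕ) : ℂ) * z ^ j + (b n : ℂ) * z ^ n := by
    rw [Finset.sum_range_succ]
    rfl
  rw [h1]
  simp only [zero_add, Nat.reduceDiv, Nat.choose_zero_right, Nat.cast_one, pow_one, one_mul,
    pow_zero, mul_one, Nat.zero_div]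
  linear_combination (-1 : ℂ) * h2 + h3 - z ^ 2 * h4

lemma b_odd (l : ℕ) : b (2 * l + 2) = 2 * b (2 * l + 1) := by
  unfold b
  have h1 : (2 * l + 2) / 2 = l + 1 := by omega
  have h2 : (2 * l + 1) / 2 = l := by omega
  rw [h1, h2, Nat.choose_succ_succ, Nat.choose_symm_half l]
  ring

lemma b_even (l : ℕ) : (l + 1) * b (2 * l + 1) = (2 * l + 1) * b (2 * l) := by
  unfold b
  have h1 : (2 * l) / 2 = l := by omega
  have h2 : (2 * l + 1) / 2 = l := by omega
  rw [h1, h2]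
  have h3 := Nat.add_one_mul_choose_eq (2 * l) l
  rw [Nat.choose_symm_half l] at h3
  rw [h3]
  ring

lemma b_pos (n : ℕ) : 0 < b n := Nat.choose_pos (Nat.div_le_self n 2)

lemma rec_sum (m N : ℕ) (z : ℂ) (hc : 1 + z ^ 2 ≠ 0) :
    P (m + N) z * (1 + z ^ 2) = (1 + z ^ 2) ^ N * ((1 + z ^ 2) * P m z +
      (1 - z) * z ^ (m + 1) * ∑ i ∈ range N, (b (m + i) : ℂ) * (z / (1 + z ^ 2)) ^ i) := by
  induction N with
  | zero => simp; ring
  | succ N ih =>
    rw [← add_assoc, rec_P, Finset.sum_range_succ]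
    have h1 : (1 + z ^ 2) ^ N * (z / (1 + z ^ 2)) ^ N = z ^ N := by
      rw [← mul_pow]
      congr 1
      field_simp
    have e1 : ((1 + z ^ 2) * P (m + N) z + (b (m + N) : ℂ) * z ^ (m + N + 1) * (1 - z)) *
        (1 + z ^ 2) = (1 + z ^ 2) * (P (m + N) z * (1 + z ^ 2)) +
        (b (m + N) : ℂ) * z ^ (m + N + 1) * (1 - z) * (1 + z ^ 2) := by ring
    rw [e1, ih]
    have e2 : z ^ (m + N + 1) = z ^ (m + 1) * z ^ N := by ring
    rw [e2, ← h1]
    ring

/-! ## The Eneström–Kakeya estimates -/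

lemma ek_id {K : Type*} [Field K] (a : ℕ → K) (R u : K) (N : ℕ) :
    (u - R) * ∑ i ∈ range (N + 1), a i * u ^ i =
      a N * u ^ (N + 1) - (R * a 0 + ∑ i ∈ range N, (R * a (i + 1) - a i) * u ^ (i + 1)) := by
  induction N with
  | zero => simp; ring
  | succ N ih =>
    rw [Finset.sum_range_succ, mul_add, ih, Finset.sum_range_succ _ N]
    ring

lemma poly_pos (a : ℕ → ℝ) (N : ℕ) (ha : ∀ i, 0 < a i) (t : ℝ) (ht : 0 ≤ t) :
    0 < ∑ i ∈ range (N + 1), a i * t ^ i := by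
  rw [Finset.sum_range_succ']
  have h1 : 0 ≤ ∑ i ∈ range N, a (i + 1) * t ^ (i + 1) :=
    Finset.sum_nonneg (fun i _ => mul_nonneg (ha _).le (pow_nonneg ht _))
  have h2 := ha 0
  simp only [pow_zero, mul_one]
  linarith

lemma ek_upper (a : ℕ → ℝ) (N : ℕ) (ha : ∀ i, 0 < a i) (R : ℝ) (hR : 0 < R)
    (h : ∀ i, a i ≤ R * a (i + 1)) (u : ℂ)
    (hu : ∑ i ∈ range (N + 1), (a i : ℂ) * u ^ i = 0) : ‖u‖ ≤ R := by
  have h1 := ek_id (fun i => (a i : ℂ)) (R : ℂ) u N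
  rw [hu, mul_zero] at h1
  have h2 : (a N : ℂ) * u ^ (N + 1) = (R : ℂ) * a 0 +
      ∑ i ∈ range N, ((R : ℂ) * a (i + 1) - a i) * u ^ (i + 1) := by
    linear_combination -h1
  have h3 : a N * ‖u‖ ^ (N + 1) ≤ R * a 0 +
      ∑ i ∈ range N, (R * a (i + 1) - a i) * ‖u‖ ^ (i + 1) := by
    have e1 : ‖(a N : ℂ) * u ^ (N + 1)‖ = a N * ‖u‖ ^ (N + 1) := by
      rw [norm_mul, norm_pow, Complex.norm_real, Real.norm_of_nonneg (ha N).le]
    rw [← e1, h2]
    refine (norm_add_le _ _).trans ?_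
    apply add_le_add
    · rw [norm_mul, Complex.norm_real, Complex.norm_real, Real.norm_of_nonneg hR.le,
        Real.norm_of_nonneg (ha 0).le]
    · refine (norm_sum_le _ _).trans (Finset.sum_le_sum fun i _ => ?_)
      have e2 : ((R : ℂ) * a (i + 1) - a i) = ((R * a (i + 1) - a i : ℝ) : ℂ) := by push_cast; ring
      rw [norm_mul, norm_pow, e2, Complex.norm_real,
        Real.norm_of_nonneg (sub_nonneg.2 (h i))]
  have h4 := ek_id a R ‖u‖ N
  have h5 := poly_pos a N ha ‖u‖ (norm_nonneg u)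
  by_contra hcon
  push Not at hcon
  have h6 : 0 < (‖u‖ - R) * ∑ i ∈ range (N + 1), a i * ‖u‖ ^ i :=
    mul_pos (sub_pos.2 hcon) h5
  linarith

lemma ek_lower (a : ℕ → ℝ) (N : ℕ) (ha : ∀ i, 0 < a i) (R : ℝ) (hR : 0 < R)
    (h : ∀ i < N, R * a (i + 1) ≤ a i) (u : ℂ)
    (hu : ∑ i ∈ range (N + 1), (a i : ℂ) * u ^ i = 0) : R ≤ ‖u‖ := by
  have h1 := ek_id (fun i => (a i : ℂ)) (R : ℂ) u N
  rw [hu, mul_zero] at h1
  have h2 : (R : ℂ) * a 0 = (a N : ℂ) * u ^ (N + 1) +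
      ∑ i ∈ range N, ((a i : ℂ) - (R : ℂ) * a (i + 1)) * u ^ (i + 1) := by
    have : ∑ i ∈ range N, ((a i : ℂ) - (R : ℂ) * a (i + 1)) * u ^ (i + 1) =
        - ∑ i ∈ range N, ((R : ℂ) * a (i + 1) - a i) * u ^ (i + 1) := by
      rw [← Finset.sum_neg_distrib]
      exact Finset.sum_congr rfl (fun i _ => by ring)
    rw [this]
    linear_combination h1
  have h3 : R * a 0 ≤ a N * ‖u‖ ^ (N + 1) +
      ∑ i ∈ range N, (a i - R * a (i + 1)) * ‖u‖ ^ (i + 1) := by
    have e1 : ‖(R : ℂ) * a 0‖ = R * a 0 := by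
      rw [norm_mul, Complex.norm_real, Complex.norm_real, Real.norm_of_nonneg hR.le,
        Real.norm_of_nonneg (ha 0).le]
    rw [← e1, h2]
    refine (norm_add_le _ _).trans ?_
    apply add_le_add
    · rw [norm_mul, norm_pow, Complex.norm_real, Real.norm_of_nonneg (ha N).le]
    · refine (norm_sum_le _ _).trans (Finset.sum_le_sum fun i hi => ?_)
      have e2 : ((a i : ℂ) - (R : ℂ) * a (i + 1)) = ((a i - R * a (i + 1) : ℝ) : ℂ) := by
        push_cast; ring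
      rw [norm_mul, norm_pow, e2, Complex.norm_real,
        Real.norm_of_nonneg (sub_nonneg.2 (h i (Finset.mem_range.1 hi)))]
  have h4 := ek_id a R ‖u‖ N
  have h7 : ∑ i ∈ range N, (a i - R * a (i + 1)) * ‖u‖ ^ (i + 1) =
        - ∑ i ∈ range N, (R * a (i + 1) - a i) * ‖u‖ ^ (i + 1) := by
    rw [← Finset.sum_neg_distrib]
    exact Finset.sum_congr rfl (fun i _ => by ring)
  have h5 := poly_pos a N ha ‖u‖ (norm_nonneg u)
  by_contra hcon
  push Not at hcon
  have h6 : (‖u‖ - R) * ∑ i ∈ range (N + 1), a i * ‖u‖ ^ i < 0 :=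
    mul_neg_of_neg_of_pos (sub_neg.2 hcon) h5
  linarith

/-! ## The form of the polynomials of odd index -/

/-- the numbers `binom(2j,j)/4^j`. -/
noncomputable def g (j : ℕ) : ℝ := (b (2 * j) : ℝ) / 4 ^ j

lemma g_pos (j : ℕ) : 0 < g j := by
  unfold g
  have := b_pos (2 * j)
  positivity

lemma g_zero : g 0 = 1 := by simp [g, b]

lemma g_succ (j : ℕ) : g (j + 1) * (2 * j + 2) = g j * (2 * j + 1) := by
  unfold g
  have h1 : ((j : ℝ) + 1) * (b (2 * j + 1) : ℝ) = (2 * j + 1) * (b (2 * j) : ℝ) := by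
    exact_mod_cast b_even j
  have h2 : (b (2 * j + 2) : ℝ) = 2 * (b (2 * j + 1) : ℝ) := by exact_mod_cast b_odd j
  have h3 : 2 * (j + 1) = 2 * j + 2 := by ring
  rw [h3, h2, pow_succ]
  field_simp
  linear_combination 4 * h1

lemma g_succ_c (j : ℕ) : (g (j + 1) : ℂ) = (g j : ℂ) * (2 * j + 1) / (2 * j + 2) := by
  have h := g_succ j
  have h2 : (2 * (j : ℂ) + 2) ≠ 0 := by
    have : (2 * (j : ℝ) + 2) ≠ 0 := by positivity
    exact_mod_cast this
  rw [eq_div_iff h2]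
  exact_mod_cast h

lemma b_even_c (j : ℕ) : (b (2 * j + 2) : ℂ) = 4 ^ (j + 1) * (g (j + 1) : ℂ) := by
  have : (b (2 * j + 2) : ℝ) = 4 ^ (j + 1) * g (j + 1) := by
    unfold g
    have h3 : 2 * (j + 1) = 2 * j + 2 := by ring
    rw [h3]
    field_simp
  exact_mod_cast this

lemma b_odd_c (j : ℕ) : 2 * (b (2 * j + 1) : ℂ) = 4 ^ (j + 1) * (g (j + 1) : ℂ) := by
  rw [← b_even_c]
  exact_mod_cast (b_odd j).symm

/-- the truncated binomial series. -/
noncomputable def S (h : ℕ) (X : ℂ) : ℂ := ∑ j ∈ range (h + 1), (g j : ℂ) * X ^ j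

lemma odd_form (h : ℕ) (z : ℂ) (hc : 1 + z ^ 2 ≠ 0) :
    2 * P (2 * h + 1) z = (1 + z) * (1 + z ^ 2) ^ (2 * h + 1) *
      (1 + (1 - z ^ 2) / (1 + z ^ 2) * S h (4 * z ^ 2 / (1 + z ^ 2) ^ 2)) := by
  induction h with
  | zero =>
    have : P (2 * 0 + 1) z = 1 + z := by
      rw [P_eq]
      simp [Finset.sum_range_succ]
    rw [this]
    simp only [S, zero_add, Finset.range_one, Finset.sum_singleton, pow_zero, mul_one, g_zero,
      Complex.ofReal_one, mul_zero, pow_one]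
    field_simp
    ring
  | succ h ih =>
    have e1 : 2 * (h + 1) + 1 = (2 * h + 1) + 1 + 1 := by ring
    have e2 : 2 * h + 1 + 1 = 2 * h + 2 := by ring
    have hS : S (h + 1) (4 * z ^ 2 / (1 + z ^ 2) ^ 2) = S h (4 * z ^ 2 / (1 + z ^ 2) ^ 2) +
        (g (h + 1) : ℂ) * (4 * z ^ 2 / (1 + z ^ 2) ^ 2) ^ (h + 1) := by
      unfold S
      rw [Finset.sum_range_succ _ (h + 1)]
    have hX : (1 + z ^ 2) ^ (2 * h + 2) * (4 * z ^ 2 / (1 + z ^ 2) ^ 2) ^ (h + 1) =
        4 ^ (h + 1) * z ^ (2 * h + 2) := by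
      have : (1 + z ^ 2) ^ (2 * h + 2) = ((1 + z ^ 2) ^ 2) ^ (h + 1) := by
        rw [← pow_mul]; ring
      rw [this, ← mul_pow]
      have h5 : (1 + z ^ 2) ^ 2 * (4 * z ^ 2 / (1 + z ^ 2) ^ 2) = 4 * z ^ 2 := by
        field_simp
      rw [h5, mul_pow, ← pow_mul]
      ring
    rw [e1, rec_P, rec_P, hS]
    have hb1 := b_odd_c h
    have hb2 := b_even_c h
    rw [e2] at *
    have hs : (1 + z ^ 2) * ((1 - z ^ 2) / (1 + z ^ 2)) = 1 - z ^ 2 := by field_simp
    have key : (1 + z) * (1 + z ^ 2) ^ (2 * h + 2 + 1) * (1 + (1 - z ^ 2) / (1 + z ^ 2) *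
        (S h (4 * z ^ 2 / (1 + z ^ 2) ^ 2) +
        (g (h + 1) : ℂ) * (4 * z ^ 2 / (1 + z ^ 2) ^ 2) ^ (h + 1))) =
        (1 + z ^ 2) ^ 2 * ((1 + z) * (1 + z ^ 2) ^ (2 * h + 1) *
      (1 + (1 - z ^ 2) / (1 + z ^ 2) * S h (4 * z ^ 2 / (1 + z ^ 2) ^ 2))) +
      (1 + z) * ((1 + z ^ 2) * ((1 - z ^ 2) / (1 + z ^ 2))) * (g (h + 1) : ℂ) *
      ((1 + z ^ 2) ^ (2 * h + 2) * (4 * z ^ 2 / (1 + z ^ 2) ^ 2) ^ (h + 1)) := by ring
    rw [key, ← ih, hs, hX, hb2]
    have e3 : (b (2 * h + 1) : ℂ) = 4 ^ (h + 1) * (g (h + 1) : ℂ) / 2 := by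
      rw [← hb1]; ring
    rw [e3]
    ring

/-- the sum whose zeros carry the roots. -/
noncomputable def D (h : ℕ) (X : ℂ) : ℂ := ∑ j ∈ range (h + 1), (g j : ℂ) / (h + j + 1) * X ^ j

lemma aux_id (h N : ℕ) (X : ℂ) :
    (2 * h + 2) * ∑ j ∈ range (N + 1), (g j : ℂ) / (h + j + 1) * X ^ j -
      (2 * h + 3) * ∑ j ∈ range N, (g j : ℂ) / (h + j + 2) * X ^ (j + 1) =
    2 * ∑ j ∈ range (N + 1), (g j : ℂ) * X ^ j - 2 * ∑ j ∈ range N, (g j : ℂ) * X ^ (j + 1) := by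
  have nz : ∀ a : ℕ, ((a : ℂ) + 1) ≠ 0 := fun a => Nat.cast_add_one_ne_zero a
  induction N with
  | zero =>
    simp only [zero_add, Finset.range_one, Finset.sum_singleton, pow_zero, mul_one,
      Finset.range_zero, Finset.sum_empty, mul_zero, sub_zero, Nat.cast_zero, add_zero]
    have := nz h
    field_simp
  | succ N ih =>
    rw [Finset.sum_range_succ (fun j => (g j : ℂ) / (h + j + 1) * X ^ j) (N + 1),
      Finset.sum_range_succ (fun j => (g j : ℂ) / (h + j + 2) * X ^ (j + 1)) N,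
      Finset.sum_range_succ (fun j => (g j : ℂ) * X ^ j) (N + 1),
      Finset.sum_range_succ (fun j => (g j : ℂ) * X ^ (j + 1)) N]
    have h1 : ((h : ℂ) + N + 2) ≠ 0 := by
      have := nz (h + N + 1)
      push_cast at this
      intro h0
      apply this
      linear_combination h0
    have h2 : (2 * (N : ℂ) + 2) ≠ 0 := by
      have := nz N
      intro h0
      apply this
      linear_combination h0 / 2
    have e1 : (2 * (h : ℂ) + 2) * ((g (N + 1) : ℂ) / (h + ((N + 1 : ℕ) : ℂ) + 1) * X ^ (N + 1)) -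
        (2 * h + 3) * ((g N : ℂ) / (h + N + 2) * X ^ (N + 1)) =
        2 * ((g (N + 1) : ℂ) * X ^ (N + 1)) - 2 * ((g N : ℂ) * X ^ (N + 1)) := by
      rw [g_succ_c]
      push_cast
      have h3 : ((h : ℂ) + (N + 1) + 1) = h + N + 2 := by ring
      rw [h3]
      field_simp
      ring
    linear_combination ih + e1

lemma sq_form (h : ℕ) (X : ℂ) :
    (1 - X) * (S h X) ^ 2 = 1 - 2 * (h + 1) * (g (h + 1) : ℂ) * X ^ (h + 1) * D h X := by
  induction h with
  | zero =>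
    simp only [S, D, zero_add, Finset.range_one, Finset.sum_singleton, g_zero, pow_zero,
      Complex.ofReal_one, Nat.cast_zero]
    have := g_succ_c 0
    simp only [zero_add, g_zero, Nat.cast_zero, mul_zero, Complex.ofReal_one] at this
    rw [this]
    ring
  | succ h ih =>
    have hS : S (h + 1) X = S h X + (g (h + 1) : ℂ) * X ^ (h + 1) := by
      unfold S
      rw [Finset.sum_range_succ _ (h + 1)]
    have nz : ∀ a : ℕ, ((a : ℂ) + 1) ≠ 0 := fun a => Nat.cast_add_one_ne_zero a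
    have h1 := aux_id h (h + 1) X
    have h2 : ∑ j ∈ range (h + 1 + 1), (g j : ℂ) / (h + j + 1) * X ^ j =
        D h X + (g (h + 1) : ℂ) / (2 * h + 2) * X ^ (h + 1) := by
      unfold D
      rw [Finset.sum_range_succ _ (h + 1)]
      push_cast
      have : ((h : ℂ) + (h + 1) + 1) = 2 * h + 2 := by ring
      rw [this]
    have h3 : X * D (h + 1) X = ∑ j ∈ range (h + 1), (g j : ℂ) / (h + j + 2) * X ^ (j + 1) +
        (g (h + 1) : ℂ) / (2 * h + 3) * X ^ (h + 2) := by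
      unfold D
      rw [Finset.sum_range_succ _ (h + 1), mul_add, Finset.mul_sum]
      congr 1
      · apply Finset.sum_congr rfl
        intro j _
        push_cast
        have : ((h : ℂ) + 1 + j + 1) = h + j + 2 := by ring
        rw [this]
        ring
      · push_cast
        have : ((h : ℂ) + 1 + (h + 1) + 1) = 2 * h + 3 := by ring
        rw [this]
        ring
    have h4 : ∑ j ∈ range (h + 1 + 1), (g j : ℂ) * X ^ j = S h X + (g (h + 1) : ℂ) * X ^ (h + 1) := by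
      rw [← hS]
      rfl
    have h5 : ∑ j ∈ range (h + 1), (g j : ℂ) * X ^ (j + 1) = X * S h X := by
      unfold S
      rw [Finset.mul_sum]
      exact Finset.sum_congr rfl (fun j _ => by ring)
    rw [h2, h4, h5] at h1
    have n1 : (2 * (h : ℂ) + 2) ≠ 0 := by
      have := nz h
      intro h0
      apply this
      linear_combination h0 / 2
    have n2 : (2 * (h : ℂ) + 3) ≠ 0 := by
      have := nz (2 * h + 2)
      push_cast at this
      intro h0
      apply this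
      linear_combination h0
    have n3 : (2 * (h : ℂ) + 4) ≠ 0 := by
      have := nz (h + 1)
      push_cast at this
      intro h0
      apply this
      linear_combination h0 / 2
    have m1 : (2 * (h : ℂ) + 2) * ((g (h + 1) : ℂ) / (2 * h + 2)) = g (h + 1) := by
      field_simp
    have m2 : (2 * (h : ℂ) + 3) * ((g (h + 1) : ℂ) / (2 * h + 3)) = g (h + 1) := by
      field_simp
    have m3 : 2 * ((h : ℂ) + 1 + 1) * (g (h + 1 + 1) : ℂ) = (2 * h + 3) * g (h + 1) := by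
      rw [g_succ_c (h + 1)]
      push_cast
      have : (2 * ((h : ℂ) + 1) + 2) = 2 * h + 4 := by ring
      rw [this]
      field_simp
      ring
    have key : (2 * (h : ℂ) + 3) * (X * D (h + 1) X) = (2 * h + 2) * D h X -
        (1 - X) * (2 * S h X + (g (h + 1) : ℂ) * X ^ (h + 1)) := by
      linear_combination (2 * (h : ℂ) + 3) * h3 - h1 + X ^ (h + 1) * m1 + X ^ (h + 2) * m2
    rw [hS]
    push_cast
    rw [m3]
    linear_combination ih + (g (h + 1) : ℂ) * X ^ (h + 1) * key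

/-! ## The main argument -/

/-- A nontrivial root of a polynomial of odd index `2h+1` gives a root `X ≠ 0` of `D h`. -/
lemma odd_root (h : ℕ) (z : ℂ) (hz : P (2 * h + 1) z = 0) (hz1 : z ≠ -1) :
    1 + z ^ 2 ≠ 0 ∧ z ≠ 0 ∧ z ≠ 1 ∧ D h (4 * z ^ 2 / (1 + z ^ 2) ^ 2) = 0 := by
  have hz0 : z ≠ 0 := by
    rintro rfl
    rw [P_eq, Finset.sum_range_succ'] at hz
    simp at hz
  have hzone : z ≠ 1 := by
    rintro rfl
    rw [P_eq] at hz
    simp only [one_pow, mul_one] at hz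
    have h1 : (∑ j ∈ range (2 * h + 1 + 1), (2 * h + 1).choose (j / 2) : ℕ) = 0 := by
      exact_mod_cast hz
    rw [Finset.sum_range_succ'] at h1
    simp at h1
  have hc : 1 + z ^ 2 ≠ 0 := by
    intro hc
    rw [rec_P, hc, zero_mul, zero_add] at hz
    have h1 : (b (2 * h) : ℂ) ≠ 0 := by exact_mod_cast (b_pos (2 * h)).ne'
    have h2 : (1 - z) ≠ 0 := sub_ne_zero.2 (fun h => hzone h.symm)
    exact mul_ne_zero (mul_ne_zero h1 (pow_ne_zero _ hz0)) h2 hz
  refine ⟨hc, hz0, hzone, ?_⟩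
  have h1 := odd_form h z hc
  rw [hz, mul_zero] at h1
  have hp : (1 + z) * (1 + z ^ 2) ^ (2 * h + 1) ≠ 0 :=
    mul_ne_zero (fun h => hz1 (by linear_combination h)) (pow_ne_zero _ hc)
  have h2 := (mul_eq_zero.1 h1.symm).resolve_left hp
  have h3 : ((1 - z ^ 2) / (1 + z ^ 2)) ^ 2 * (S h (4 * z ^ 2 / (1 + z ^ 2) ^ 2)) ^ 2 = 1 := by
    linear_combination ((1 - z ^ 2) / (1 + z ^ 2) * S h (4 * z ^ 2 / (1 + z ^ 2) ^ 2) - 1) * h2
  have h4 : ((1 - z ^ 2) / (1 + z ^ 2)) ^ 2 = 1 - 4 * z ^ 2 / (1 + z ^ 2) ^ 2 := by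
    field_simp
    ring
  rw [h4, sq_form] at h3
  have h5 : 2 * ((h : ℂ) + 1) * (g (h + 1) : ℂ) * (4 * z ^ 2 / (1 + z ^ 2) ^ 2) ^ (h + 1) *
      D h (4 * z ^ 2 / (1 + z ^ 2) ^ 2) = 0 := by linear_combination -h3
  have n1 : ((h : ℂ) + 1) ≠ 0 := Nat.cast_add_one_ne_zero h
  have n2 : (g (h + 1) : ℂ) ≠ 0 := by exact_mod_cast (g_pos (h + 1)).ne'
  have n3 : (4 * z ^ 2 / (1 + z ^ 2) ^ 2) ≠ 0 :=
    div_ne_zero (mul_ne_zero (by norm_num) (pow_ne_zero _ hz0)) (pow_ne_zero _ hc)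
  exact (mul_eq_zero.1 h5).resolve_left
    (mul_ne_zero (mul_ne_zero (mul_ne_zero two_ne_zero n1) n2) (pow_ne_zero _ n3))

/-- the lower bound for the roots of `D h`. -/
lemma D_lower (h : ℕ) (hh : 1 ≤ h) (X : ℂ) (hX : D h X = 0) :
    (2 * (h : ℝ) + 1) / (2 * h - 1) ≤ ‖X‖ := by
  have hh' : (1 : ℝ) ≤ h := by exact_mod_cast hh
  apply ek_lower (fun j => g j / (h + j + 1)) h
  · intro j
    have := g_pos j
    positivity
  · apply div_pos <;> linarith
  · intro j hj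
    obtain ⟨t, rfl⟩ : ∃ t, h = j + 1 + t := ⟨h - j - 1, by omega⟩
    have h1 := g_succ j
    have h2 := g_pos j
    have h3 : g (j + 1) = g j * (2 * j + 1) / (2 * j + 2) := by
      rw [eq_div_iff (by positivity)]
      exact h1
    rw [h3]
    push_cast
    have e0 : (2 * ((j : ℝ) + 1 + t) + 1) / (2 * (j + 1 + t) - 1) *
        (g j * (2 * j + 1) / (2 * j + 2) / (j + 1 + t + (j + 1) + 1)) =
        g j * ((2 * (j : ℝ) + 3 + 2 * t) * (2 * j + 1)) /
          ((2 * j + 1 + 2 * t) * (2 * j + 2) * (2 * j + 3 + t)) := by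
      have a1 : (2 * ((j : ℝ) + 1 + t) + 1) = 2 * j + 3 + 2 * t := by ring
      have a2 : (2 * ((j : ℝ) + 1 + t) - 1) = 2 * j + 1 + 2 * t := by ring
      have a3 : ((j : ℝ) + 1 + t + (j + 1) + 1) = 2 * j + 3 + t := by ring
      rw [a1, a2, a3]
      field_simp
    have e1 : ((j : ℝ) + 1 + t + j + 1) = 2 * j + 2 + t := by ring
    rw [e0, e1, div_le_div_iff₀ (by positivity) (by positivity)]
    have e2 : g j * ((2 * (j : ℝ) + 1 + 2 * t) * (2 * j + 2) * (2 * j + 3 + t)) -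
        g j * ((2 * (j : ℝ) + 3 + 2 * t) * (2 * j + 1)) * (2 * j + 2 + t) =
        g j * (t * (6 * j + 7) + 2 * t ^ 2) := by ring
    have e3 : 0 ≤ g j * (t * (6 * j + 7) + 2 * t ^ 2) := by positivity
    linarith
  · have : ∑ i ∈ range (h + 1), (((g i / (h + i + 1) : ℝ)) : ℂ) * X ^ i = D h X := by
      unfold D
      apply Finset.sum_congr rfl
      intro j _
      push_cast
      rfl
    rw [this, hX]

/-- the upper bound for the roots of the partial sums of `b`. -/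
lemma b_upper (h N : ℕ) (u : ℂ)
    (hu : ∑ i ∈ range (N + 1), (b (2 * h + 1 + i) : ℂ) * u ^ i = 0) :
    ‖u‖ ≤ (2 * (h : ℝ) + 4) / (2 * (2 * h + 3)) := by
  apply ek_upper (fun i => (b (2 * h + 1 + i) : ℝ)) N
  · intro i
    exact_mod_cast b_pos _
  · positivity
  · intro i
    rcases Nat.even_or_odd' i with ⟨l, rfl | rfl⟩
    · have h1 : (b (2 * h + 1 + (2 * l + 1)) : ℝ) = 2 * (b (2 * h + 1 + 2 * l) : ℝ) := by
        have := b_odd (h + l)
        have e1 : 2 * (h + l) + 2 = 2 * h + 1 + (2 * l + 1) := by ring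
        have e2 : 2 * (h + l) + 1 = 2 * h + 1 + 2 * l := by ring
        rw [e1, e2] at this
        exact_mod_cast this
      rw [h1]
      have h2 : (0 : ℝ) < (b (2 * h + 1 + 2 * l) : ℝ) := by exact_mod_cast b_pos _
      rw [div_mul_eq_mul_div, le_div_iff₀ (by positivity)]
      nlinarith
    · have h1 : ((h : ℝ) + l + 1 + 1) * (b (2 * h + 1 + (2 * l + 1 + 1)) : ℝ) =
          (2 * (h + l + 1) + 1) * (b (2 * h + 1 + (2 * l + 1)) : ℝ) := by
        have := b_even (h + l + 1)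
        have e1 : 2 * (h + l + 1) + 1 = 2 * h + 1 + (2 * l + 1 + 1) := by ring
        have e2 : 2 * (h + l + 1) = 2 * h + 1 + (2 * l + 1) := by ring
        rw [e1, e2] at this
        have e3 : (2 * h + 1 + (2 * l + 1 + 1) : ℕ) = 2 * (h + l + 1) + 1 := by ring
        rw [e3] at this ⊢
        have e4 : (2 * (h + l + 1) + 1 : ℕ) = (2 * (h + l + 1) + 1 : ℕ) := rfl
        exact_mod_cast this
      rw [div_mul_eq_mul_div, le_div_iff₀ (by positivity)]
      have hp : (0 : ℝ) < (h : ℝ) + l + 1 + 1 := by positivity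
      have hb : (0 : ℝ) < (b (2 * h + 1 + (2 * l + 1)) : ℝ) := by exact_mod_cast b_pos _
      have e5 : 0 ≤ 2 * (l : ℝ) * (b (2 * h + 1 + (2 * l + 1)) : ℝ) := by positivity
      refine le_of_mul_le_mul_right ?_ hp
      have e6 : (2 * (h : ℝ) + 4) * (b (2 * h + 1 + (2 * l + 1 + 1)) : ℝ) *
          ((h : ℝ) + l + 1 + 1) = (2 * (h : ℝ) + 4) * ((2 * (h + l + 1) + 1) *
          (b (2 * h + 1 + (2 * l + 1)) : ℝ)) := by rw [← h1]; ring
      rw [e6]
      linarith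
  · exact_mod_cast hu

/-- the case of an odd smaller index. -/
lemma odd_case (m n : ℕ) (hm : Odd m) (hmn : m < n) (z : ℂ) (h1 : P m z = 0) (h2 : P n z = 0) :
    z = -1 := by
  by_contra hz1
  obtain ⟨h, rfl⟩ := hm
  obtain ⟨N, rfl⟩ : ∃ N, n = 2 * h + 1 + (N + 1) := ⟨n - (2 * h + 1) - 1, by omega⟩
  obtain ⟨hc, hz0, hzone, hD⟩ := odd_root h z h1 hz1
  have h3 := rec_sum (2 * h + 1) (N + 1) z hc
  rw [h2, h1, zero_mul, mul_zero, zero_add] at h3
  have h4 := (mul_eq_zero.1 h3.symm).resolve_left (pow_ne_zero _ hc)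
  have h5 : (1 - z) * z ^ (2 * h + 1 + 1) ≠ 0 :=
    mul_ne_zero (sub_ne_zero.2 (fun h => hzone h.symm)) (pow_ne_zero _ hz0)
  have h6 := b_upper h N _ ((mul_eq_zero.1 h4).resolve_left h5)
  have hX : 4 * z ^ 2 / (1 + z ^ 2) ^ 2 = 4 * (z / (1 + z ^ 2)) ^ 2 := by
    field_simp
  rcases Nat.eq_zero_or_pos h with rfl | hh
  · simp only [D, zero_add, Finset.range_one, Finset.sum_singleton, g_zero, pow_zero,
      Complex.ofReal_one, Nat.cast_zero] at hD
    norm_num at hD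
  · have h7 := D_lower h hh _ hD
    rw [hX, norm_mul, norm_pow] at h7
    have h8 : ‖(4 : ℂ)‖ = 4 := by norm_num
    rw [h8] at h7
    have hh' : (1 : ℝ) ≤ h := by exact_mod_cast hh
    have h9 : ‖z / (1 + z ^ 2)‖ ^ 2 ≤ ((2 * (h : ℝ) + 4) / (2 * (2 * h + 3))) ^ 2 :=
      pow_le_pow_left₀ (norm_nonneg _) h6 2
    have h10 : (2 * (h : ℝ) + 1) / (2 * h - 1) ≤
        4 * ((2 * (h : ℝ) + 4) / (2 * (2 * h + 3))) ^ 2 := by linarith
    have h11 : 4 * ((2 * (h : ℝ) + 4) / (2 * (2 * h + 3))) ^ 2 =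
        (2 * h + 4) ^ 2 / (2 * h + 3) ^ 2 := by
      field_simp
      ring
    rw [h11, div_le_div_iff₀ (by linarith) (by positivity)] at h10
    nlinarith

/-! ## Even smaller index -/

/-- the polynomial `Y`. -/
noncomputable def Y (h : ℕ) (X : ℂ) : ℂ :=
  ∑ j ∈ range h, (2 * j + 1) * (g j : ℂ) / (h + j + 1) * X ^ j

lemma Y_eq (h : ℕ) (X : ℂ) :
    2 * S h X - (2 * h + 1) * D h X - (g h : ℂ) * X ^ h = Y h X := by
  have nz : ∀ a : ℕ, ((a : ℂ) + 1) ≠ 0 := fun a => Nat.cast_add_one_ne_zero a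
  unfold S D Y
  rw [Finset.mul_sum, Finset.mul_sum, ← Finset.sum_sub_distrib, Finset.sum_range_succ]
  have n1 : ((h : ℂ) + h + 1) ≠ 0 := by
    have := nz (h + h)
    push_cast at this
    exact this
  have e1 : 2 * ((g h : ℂ) * X ^ h) - (2 * h + 1) * ((g h : ℂ) / (h + h + 1) * X ^ h) -
      (g h : ℂ) * X ^ h = 0 := by
    have e0 : (h : ℂ) + h + 1 = 2 * h + 1 := by ring
    rw [e0] at n1 ⊢
    field_simp
    ring
  have e2 : ∑ x ∈ range h, (2 * ((g x : ℂ) * X ^ x) -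
      (2 * h + 1) * ((g x : ℂ) / (h + x + 1) * X ^ x)) =
      ∑ j ∈ range h, (2 * j + 1) * (g j : ℂ) / (h + j + 1) * X ^ j := by
    apply Finset.sum_congr rfl
    intro j _
    have n2 : ((h : ℂ) + j + 1) ≠ 0 := by
      have := nz (h + j)
      push_cast at this
      exact this
    field_simp
    ring
  linear_combination e1 + e2

/-- A root of a polynomial of even index `2h`, `h ≥ 1`, solves `X (1 - X) Y(X)^2 = 4`. -/
lemma even_root (h : ℕ) (hh : 1 ≤ h) (z : ℂ) (hz : P (2 * h) z = 0) (hz1 : z ≠ -1) :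
    1 + z ^ 2 ≠ 0 ∧ z ≠ 0 ∧ z ≠ 1 ∧
      (4 * z ^ 2 / (1 + z ^ 2) ^ 2) * (1 - 4 * z ^ 2 / (1 + z ^ 2) ^ 2) *
        Y h (4 * z ^ 2 / (1 + z ^ 2) ^ 2) ^ 2 = 4 := by
  have hz0 : z ≠ 0 := by
    rintro rfl
    rw [P_eq, Finset.sum_range_succ'] at hz
    simp at hz
  have hzone : z ≠ 1 := by
    rintro rfl
    rw [P_eq] at hz
    simp only [one_pow, mul_one] at hz
    have h1 : (∑ j ∈ range (2 * h + 1), (2 * h).choose (j / 2) : ℕ) = 0 := by
      exact_mod_cast hz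
    rw [Finset.sum_range_succ'] at h1
    simp at h1
  have hc : 1 + z ^ 2 ≠ 0 := by
    intro hc
    obtain ⟨l, rfl⟩ : ∃ l, h = l + 1 := ⟨h - 1, by omega⟩
    have e : 2 * (l + 1) = (2 * l + 1) + 1 := by ring
    rw [e, rec_P, hc, zero_mul, zero_add] at hz
    have h1 : (b (2 * l + 1) : ℂ) ≠ 0 := by exact_mod_cast (b_pos (2 * l + 1)).ne'
    have h2 : (1 - z) ≠ 0 := sub_ne_zero.2 (fun h => hzone h.symm)
    exact mul_ne_zero (mul_ne_zero h1 (pow_ne_zero _ hz0)) h2 hz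
  refine ⟨hc, hz0, hzone, ?_⟩
  have h1 := odd_form h z hc
  rw [rec_P, hz, mul_zero, zero_add] at h1
  set c : ℂ := 1 + z ^ 2 with hcdef
  set x : ℂ := 2 * z / c with hx
  have hX : 4 * z ^ 2 / c ^ 2 = x ^ 2 := by
    rw [hx]
    field_simp
    ring
  rw [hX] at h1 ⊢
  set X : ℂ := x ^ 2 with hXdef
  set T : ℂ := (1 + x) * S h X - (g h : ℂ) * x * X ^ h with hT
  have hb : (b (2 * h) : ℂ) = 4 ^ h * (g h : ℂ) := by
    have : (b (2 * h) : ℝ) = 4 ^ h * g h := by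
      unfold g
      field_simp
    exact_mod_cast this
  have hzx : z = x * c / 2 := by rw [hx]; field_simp
  have hx0 : x ≠ 0 := by
    rw [hx]
    exact div_ne_zero (mul_ne_zero two_ne_zero hz0) hc
  have hx1 : (1 + z) ^ 2 = c * (1 + x) := by
    rw [hx, hcdef]
    rw [hcdef] at hc
    field_simp
    ring
  have hxm : x ≠ -1 := by
    intro h
    rw [h, add_neg_cancel, mul_zero] at hx1
    have := pow_eq_zero_iff (two_ne_zero) |>.1 hx1
    exact hz1 (by linear_combination this)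
  have hx1' : (1 + x) ≠ 0 := fun h => hxm (by linear_combination h)
  -- the root equation
  have hs2 : ((1 - z ^ 2) / c) ^ 2 = (1 - x) * (1 + x) := by
    have : (1 - z ^ 2) ^ 2 = c ^ 2 - 4 * z ^ 2 := by rw [hcdef]; ring
    rw [div_pow, this, hx]
    field_simp
    ring
  have hroot1 : (1 + x) = - ((1 - z ^ 2) / c) * T := by
    have hzp : 2 * (4 ^ h : ℂ) * z ^ (2 * h + 1) = x * X ^ h * c ^ (2 * h + 1) := by
      have q1 : z ^ (2 * h + 1) = (x * c) ^ (2 * h + 1) / 2 ^ (2 * h + 1) := by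
        rw [← div_pow, ← hzx]
      have q2 : (2 : ℂ) ^ (2 * h + 1) = 2 * 4 ^ h := by
        rw [pow_succ, pow_mul]
        norm_num
        ring
      have q3 : (2 * (4 : ℂ) ^ h) ≠ 0 := mul_ne_zero two_ne_zero (pow_ne_zero _ (by norm_num))
      rw [q1, q2, mul_div_cancel₀ _ q3, mul_pow, hXdef]
      ring
    have q4 : (g h : ℂ) * x * X ^ h * (1 - z) * c ^ (2 * h + 1) =
        (1 + z) * (1 + (1 - z ^ 2) / c * S h X) * c ^ (2 * h + 1) := by
      rw [hb] at h1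
      linear_combination h1 - (g h : ℂ) * (1 - z) * hzp
    have q5 := mul_right_cancel₀ (pow_ne_zero _ hc) q4
    have q6 : c * (1 + x) = c * (- ((1 - z ^ 2) / c) * T) := by
      have q7 : c * ((1 - z ^ 2) / c) = 1 - z ^ 2 := by field_simp
      have q8 : c * (- ((1 - z ^ 2) / c) * T) = - (1 - z ^ 2) * T := by
        linear_combination -T * q7
      rw [q8, hT]
      linear_combination (-(1 : ℂ)) * (1 + z) * q5 - (1 + (1 - z ^ 2) / c * S h X) * hx1 -
        (1 + x) * S h X * q7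
    exact mul_left_cancel₀ hc q6
  have hroot : (1 + x) = (1 - x) * T ^ 2 := by
    have : (1 + x) ^ 2 = ((1 - x) * (1 + x)) * T ^ 2 := by
      rw [← hs2]
      nth_rewrite 1 [hroot1]
      ring
    have e : (1 + x) * (1 + x) = (1 + x) * ((1 - x) * T ^ 2) := by linear_combination this
    exact mul_left_cancel₀ hx1' e
  have hsq := sq_form h X
  have hg : 2 * ((h : ℂ) + 1) * (g (h + 1) : ℂ) = (2 * h + 1) * g h := by
    rw [g_succ_c h]
    have n1 : (2 * (h : ℂ) + 2) ≠ 0 := by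
      have := Nat.cast_add_one_ne_zero (R := ℂ) h
      intro h0
      apply this
      linear_combination h0 / 2
    field_simp
  rw [hg] at hsq
  have hY := Y_eq h X
  have hgx : (g h : ℂ) * x * X ^ h ≠ 0 := by
    refine mul_ne_zero (mul_ne_zero ?_ hx0) (pow_ne_zero _ (pow_ne_zero _ hx0))
    exact_mod_cast (g_pos h).ne'
  have h2T : 2 * T = (1 + x) * x * Y h X := by
    have e1 : (1 + x) * (T * ((1 - x) * S h X + (g h : ℂ) * x * X ^ h)) =
        (1 - x) * T ^ 2 + 2 * (g h : ℂ) * x * X ^ h * T := by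
      rw [hT]
      ring
    have e2 : T * ((1 - x) * S h X + (g h : ℂ) * x * X ^ h) =
        1 + (g h : ℂ) * X ^ (h + 1) * Y h X := by
      rw [← hY, hT]
      have e3 : (1 - x ^ 2) * (S h X) ^ 2 =
          1 - (2 * h + 1) * (g h : ℂ) * X ^ (h + 1) * D h X := by
        rw [← hXdef]; exact hsq
      have e4 : X ^ (h + 1) = x ^ 2 * X ^ h := by rw [pow_succ, hXdef]; ring
      rw [e4] at e3 ⊢
      linear_combination e3
    rw [e2, ← hroot] at e1
    have e5 : ((g h : ℂ) * x * X ^ h) * (2 * T) =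
        ((g h : ℂ) * x * X ^ h) * ((1 + x) * x * Y h X) := by
      have e4 : X ^ (h + 1) = x ^ 2 * X ^ h := by rw [pow_succ, hXdef]; ring
      rw [e4] at e1
      linear_combination -e1
    exact mul_left_cancel₀ hgx e5
  have e6 : (1 + x) * (X * (1 - X) * Y h X ^ 2) = (1 + x) * 4 := by
    have e7 : (2 * T) ^ 2 * (1 - x) = 4 * (1 + x) := by
      rw [mul_pow]
      linear_combination -4 * hroot
    rw [h2T] at e7
    rw [hXdef]
    rw [hXdef] at e7
    linear_combination e7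
  exact mul_left_cancel₀ hx1' e6

/-! ## Bounds for `Y` -/

/-- the real coefficients of `Y`. -/
noncomputable def y (h j : ℕ) : ℝ := (2 * j + 1) * g j / (h + j + 1)

lemma y_pos (h j : ℕ) : 0 < y h j := by
  have := g_pos j
  unfold y
  positivity

lemma y_mono (h j : ℕ) (hj : j + 1 < h) : y h j ≤ y h (j + 1) := by
  unfold y
  obtain ⟨t, rfl⟩ : ∃ t, h = j + 2 + t := ⟨h - j - 2, by omega⟩
  have h1 := g_succ j
  have h2 := g_pos j
  have h3 : g (j + 1) = g j * (2 * j + 1) / (2 * j + 2) := by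
    rw [eq_div_iff (by positivity)]
    exact h1
  rw [h3]
  push_cast
  have e0 : (2 * ((j : ℝ) + 1) + 1) * (g j * (2 * j + 1) / (2 * j + 2)) /
      (j + 2 + t + (j + 1) + 1) = g j * (2 * j + 1) * (2 * j + 3) /
        ((2 * j + 2) * (2 * j + 4 + t)) := by
    have a3 : ((j : ℝ) + 2 + t + (j + 1) + 1) = 2 * j + 4 + t := by ring
    have a4 : (2 * ((j : ℝ) + 1) + 1) = 2 * j + 3 := by ring
    rw [a3, a4]
    field_simp
  have e1 : ((j : ℝ) + 2 + t + j + 1) = 2 * j + 3 + t := by ring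
  rw [e0, e1, div_le_div_iff₀ (by positivity) (by positivity)]
  have e2 : g j * (2 * j + 1) * (2 * j + 3) * (2 * (j : ℝ) + 3 + t) -
      (2 * j + 1) * g j * ((2 * (j : ℝ) + 2) * (2 * j + 4 + t)) =
      g j * (2 * j + 1) * (t + 1) := by ring
  have e3 : 0 ≤ g j * (2 * j + 1) * ((t : ℝ) + 1) := by positivity
  linarith

lemma y_top (h : ℕ) (hh : 1 ≤ h) : y h (h - 1) = g h := by
  obtain ⟨l, rfl⟩ : ∃ l, h = l + 1 := ⟨h - 1, by omega⟩
  unfold y
  have h1 := g_succ l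
  simp only [Nat.add_sub_cancel]
  push_cast
  rw [div_eq_iff (by positivity)]
  linear_combination -h1

lemma Y_norm (h : ℕ) (X : ℂ) (R : ℝ) (hX : ‖X‖ ≤ R) :
    ‖Y h X‖ ≤ ∑ j ∈ range h, y h j * R ^ j := by
  unfold Y
  refine (norm_sum_le _ _).trans (Finset.sum_le_sum fun j _ => ?_)
  have e : (2 * (j : ℂ) + 1) * (g j : ℂ) / (h + j + 1) = ((y h j : ℝ) : ℂ) := by
    unfold y
    push_cast
    rfl
  rw [e, norm_mul, norm_pow, Complex.norm_real, Real.norm_of_nonneg (y_pos h j).le]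
  exact mul_le_mul_of_nonneg_left (pow_le_pow_left₀ (norm_nonneg _) hX j) (y_pos h j).le

/-- summation by parts. -/
lemma abel {K : Type*} [Field K] (a : ℕ → K) (X : K) (N : ℕ) :
    (1 - X) * ∑ j ∈ range (N + 1), a j * X ^ j =
      a 0 + ∑ j ∈ range N, (a (j + 1) - a j) * X ^ (j + 1) - a N * X ^ (N + 1) := by
  induction N with
  | zero => simp; ring
  | succ N ih =>
    rw [Finset.sum_range_succ, mul_add, ih, Finset.sum_range_succ _ N]
    ring

lemma one_sub_Y_norm (h : ℕ) (hh : 1 ≤ h) (X : ℂ) (R : ℝ) (hX : ‖X‖ ≤ R) :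
    ‖(1 - X) * Y h X‖ ≤ 2 * g h * R ^ h - (R - 1) * ∑ j ∈ range h, y h j * R ^ j := by
  obtain ⟨l, rfl⟩ : ∃ l, h = l + 1 := ⟨h - 1, by omega⟩
  have e : Y (l + 1) X = ∑ j ∈ range (l + 1), ((y (l + 1) j : ℝ) : ℂ) * X ^ j := by
    unfold Y y
    apply Finset.sum_congr rfl
    intro j _
    push_cast
    rfl
  have hR : 0 ≤ R := (norm_nonneg X).trans hX
  have h1 := abel (fun j => ((y (l + 1) j : ℝ) : ℂ)) X l
  have h2 := abel (fun j => y (l + 1) j) R l
  have htop : y (l + 1) l = g (l + 1) := y_top (l + 1) hh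
  rw [e]
  have h3 : ‖(1 - X) * ∑ j ∈ range (l + 1), ((y (l + 1) j : ℝ) : ℂ) * X ^ j‖ ≤
      y (l + 1) 0 + ∑ j ∈ range l, (y (l + 1) (j + 1) - y (l + 1) j) * R ^ (j + 1) +
        y (l + 1) l * R ^ (l + 1) := by
    rw [h1]
    refine (norm_sub_le _ _).trans (add_le_add ((norm_add_le _ _).trans (add_le_add ?_ ?_)) ?_)
    · rw [Complex.norm_real, Real.norm_of_nonneg (y_pos _ _).le]
    · refine (norm_sum_le _ _).trans (Finset.sum_le_sum fun j hj => ?_)
      have hm := y_mono (l + 1) j (by have := Finset.mem_range.1 hj; omega)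
      rw [← Complex.ofReal_sub, norm_mul, norm_pow, Complex.norm_real,
        Real.norm_of_nonneg (sub_nonneg.2 hm)]
      exact mul_le_mul_of_nonneg_left (pow_le_pow_left₀ (norm_nonneg _) hX _) (sub_nonneg.2 hm)
    · rw [norm_mul, norm_pow, Complex.norm_real, Real.norm_of_nonneg (y_pos _ _).le]
      exact mul_le_mul_of_nonneg_left (pow_le_pow_left₀ (norm_nonneg _) hX _) (y_pos _ _).le
  rw [htop] at h2 h3
  linarith

lemma g_sq (h : ℕ) : (g h) ^ 2 * (2 * h + 1) ≤ 1 := by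
  induction h with
  | zero => simp [g_zero]
  | succ h ih =>
    have h1 := g_succ h
    have h2 := g_pos h
    have h3 : g (h + 1) = g h * (2 * h + 1) / (2 * h + 2) := by
      rw [eq_div_iff (by positivity)]
      exact h1
    rw [h3]
    push_cast
    have e : (g h * (2 * (h : ℝ) + 1) / (2 * h + 2)) ^ 2 * (2 * (h + 1) + 1) =
        ((g h) ^ 2 * (2 * h + 1)) * (((2 * (h : ℝ) + 1) * (2 * h + 3)) / (2 * h + 2) ^ 2) := by
      field_simp
      ring
    rw [e]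
    have h4 : ((2 * (h : ℝ) + 1) * (2 * h + 3)) / (2 * h + 2) ^ 2 ≤ 1 := by
      rw [div_le_one (by positivity)]
      nlinarith
    have h5 : 0 ≤ (g h) ^ 2 * (2 * (h : ℝ) + 1) := by positivity
    have h6 : 0 ≤ ((2 * (h : ℝ) + 1) * (2 * h + 3)) / (2 * h + 2) ^ 2 := by positivity
    calc ((g h) ^ 2 * (2 * h + 1)) * (((2 * (h : ℝ) + 1) * (2 * h + 3)) / (2 * h + 2) ^ 2)
        ≤ 1 * 1 := mul_le_mul ih h4 h6 zero_le_one
      _ = 1 := one_mul 1

lemma pow_bound (h : ℕ) : (((2 * (h : ℝ) + 2) / (2 * h + 1)) ^ 2) ^ (2 * h + 1) < 7.4 := by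
  have h1 : (2 * (h : ℝ) + 2) / (2 * h + 1) ≤ Real.exp (1 / (2 * h + 1)) := by
    have := Real.add_one_le_exp (1 / (2 * (h : ℝ) + 1))
    have e : (2 * (h : ℝ) + 2) / (2 * h + 1) = 1 / (2 * h + 1) + 1 := by
      field_simp
      ring
    rw [e]
    exact this
  have h2 : ((2 * (h : ℝ) + 2) / (2 * h + 1)) ^ (2 * h + 1) ≤ Real.exp 1 := by
    refine (pow_le_pow_left₀ (by positivity) h1 _).trans ?_
    rw [← Real.exp_nat_mul]
    have : ((2 * h + 1 : ℕ) : ℝ) * (1 / (2 * h + 1)) = 1 := by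
      push_cast
      field_simp
    rw [this]
  have h3 := Real.exp_one_lt_d9
  have h4 : 0 ≤ ((2 * (h : ℝ) + 2) / (2 * h + 1)) ^ (2 * h + 1) := by positivity
  rw [← pow_mul, mul_comm 2 (2 * h + 1), pow_mul]
  have h5 := pow_le_pow_left₀ h4 h2 2
  have h6 : Real.exp 1 ^ 2 < 7.4 := by nlinarith [Real.exp_pos 1]
  exact lt_of_le_of_lt h5 h6

/-- there is no solution of `X (1 - X) Y(X)^2 = 4` with `|X| ≤ ((2h+2)/(2h+1))^2`. -/
lemma Y_small (h : ℕ) (hh : 1 ≤ h) (X : ℂ) (hX : ‖X‖ ≤ ((2 * (h : ℝ) + 2) / (2 * h + 1)) ^ 2) :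
    X * (1 - X) * Y h X ^ 2 ≠ 4 := by
  intro heq
  set R : ℝ := ((2 * (h : ℝ) + 2) / (2 * h + 1)) ^ 2 with hR
  set B : ℝ := ∑ j ∈ range h, y h j * R ^ j with hB
  have hR1 : R - 1 = (4 * h + 3) / (2 * h + 1) ^ 2 := by
    rw [hR]
    field_simp
    ring
  have hRpos : 0 < R := by rw [hR]; positivity
  have hR1pos : 0 < R - 1 := by rw [hR1]; positivity
  have hB0 : 0 ≤ B := Finset.sum_nonneg fun j _ => mul_nonneg (y_pos h j).le (pow_nonneg hRpos.le _)
  have h1 := Y_norm h X R hX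
  have h2 := one_sub_Y_norm h hh X R hX
  have h3 : (4 : ℝ) = ‖X‖ * ‖(1 - X) * Y h X‖ * ‖Y h X‖ := by
    have : ‖X * (1 - X) * Y h X ^ 2‖ = ‖X‖ * ‖(1 - X) * Y h X‖ * ‖Y h X‖ := by
      rw [norm_mul, norm_mul, norm_mul, norm_pow]
      ring
    rw [← this, heq]
    norm_num
  have h4 : (4 : ℝ) ≤ R * (2 * g h * R ^ h - (R - 1) * B) * B := by
    rw [h3]
    have p1 : 0 ≤ 2 * g h * R ^ h - (R - 1) * B := (norm_nonneg _).trans h2
    exact mul_le_mul (mul_le_mul hX h2 (norm_nonneg _) hRpos.le) h1 (norm_nonneg _)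
      (mul_nonneg hRpos.le p1)
  have h5 : R * (2 * g h * R ^ h - (R - 1) * B) * B * (R - 1) ≤ R * (g h * R ^ h) ^ 2 := by
    nlinarith [mul_nonneg hRpos.le (sq_nonneg ((R - 1) * B - g h * R ^ h))]
  have h6 : 4 * (R - 1) ≤ R * (g h * R ^ h) ^ 2 :=
    (mul_le_mul_of_nonneg_right h4 hR1pos.le).trans h5
  have h7 : R * (g h * R ^ h) ^ 2 = (g h) ^ 2 * R ^ (2 * h + 1) := by ring
  rw [h7, hR1] at h6
  have h8 := pow_bound h
  rw [← hR] at h8
  have h9 := g_sq h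
  have h10 : 4 * ((4 * (h : ℝ) + 3) / (2 * h + 1) ^ 2) * (2 * h + 1) ^ 2 ≤
      ((g h) ^ 2 * R ^ (2 * h + 1)) * (2 * h + 1) ^ 2 :=
    mul_le_mul_of_nonneg_right h6 (by positivity)
  have h11 : 4 * ((4 * (h : ℝ) + 3) / (2 * h + 1) ^ 2) * (2 * h + 1) ^ 2 = 4 * (4 * h + 3) := by
    field_simp
  have h12 : ((g h) ^ 2 * R ^ (2 * h + 1)) * (2 * (h : ℝ) + 1) ^ 2 =
      ((g h) ^ 2 * (2 * h + 1)) * (R ^ (2 * h + 1) * (2 * h + 1)) := by ring
  have h13 : ((g h) ^ 2 * (2 * (h : ℝ) + 1)) * (R ^ (2 * h + 1) * (2 * h + 1)) ≤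
      1 * (R ^ (2 * h + 1) * (2 * h + 1)) :=
    mul_le_mul_of_nonneg_right h9 (by positivity)
  have h14 : R ^ (2 * h + 1) * (2 * (h : ℝ) + 1) ≤ 7.4 * (2 * h + 1) :=
    mul_le_mul_of_nonneg_right h8.le (by positivity)
  have h15 : (0 : ℝ) ≤ h := Nat.cast_nonneg h
  rw [h11, h12] at h10
  linarith

/-- the upper bound for the roots of the partial sums of `b`, even start. -/
lemma b_upper_even (h N : ℕ) (u : ℂ)
    (hu : ∑ i ∈ range (N + 1), (b (2 * h + i) : ℂ) * u ^ i = 0) :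
    ‖u‖ ≤ (2 * (h : ℝ) + 2) / (2 * (2 * h + 1)) := by
  apply ek_upper (fun i => (b (2 * h + i) : ℝ)) N
  · intro i
    exact_mod_cast b_pos _
  · positivity
  · intro i
    rcases Nat.even_or_odd' i with ⟨l, rfl | rfl⟩
    · have h1 : ((h : ℝ) + l + 1) * (b (2 * h + (2 * l + 1)) : ℝ) =
          (2 * (h + l) + 1) * (b (2 * h + 2 * l) : ℝ) := by
        have := b_even (h + l)
        have e1 : 2 * (h + l) + 1 = 2 * h + (2 * l + 1) := by ring
        have e2 : 2 * (h + l) = 2 * h + 2 * l := by ring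
        rw [e1, e2] at this
        have e3 : (2 * h + (2 * l + 1) : ℕ) = 2 * (h + l) + 1 := by ring
        rw [e3] at this ⊢
        exact_mod_cast this
      rw [div_mul_eq_mul_div, le_div_iff₀ (by positivity)]
      have hp : (0 : ℝ) < (h : ℝ) + l + 1 := by positivity
      have hb : (0 : ℝ) < (b (2 * h + 2 * l) : ℝ) := by exact_mod_cast b_pos _
      have e5 : 0 ≤ 2 * (l : ℝ) * (b (2 * h + 2 * l) : ℝ) := by positivity
      refine le_of_mul_le_mul_right ?_ hp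
      have e6 : (2 * (h : ℝ) + 2) * (b (2 * h + (2 * l + 1)) : ℝ) *
          ((h : ℝ) + l + 1) = (2 * (h : ℝ) + 2) * ((2 * (h + l) + 1) *
          (b (2 * h + 2 * l) : ℝ)) := by rw [← h1]; ring
      rw [e6]
      linarith
    · have h1 : (b (2 * h + (2 * l + 1 + 1)) : ℝ) = 2 * (b (2 * h + (2 * l + 1)) : ℝ) := by
        have := b_odd (h + l)
        have e1 : 2 * (h + l) + 2 = 2 * h + (2 * l + 1 + 1) := by ring
        have e2 : 2 * (h + l) + 1 = 2 * h + (2 * l + 1) := by ring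
        rw [e1, e2] at this
        exact_mod_cast this
      rw [h1]
      have h2 : (0 : ℝ) < (b (2 * h + (2 * l + 1)) : ℝ) := by exact_mod_cast b_pos _
      rw [div_mul_eq_mul_div, le_div_iff₀ (by positivity)]
      nlinarith
  · exact_mod_cast hu

/-- the case of an even smaller index. -/
lemma even_case (m n : ℕ) (hm : Even m) (hmn : m < n) (z : ℂ) (h1 : P m z = 0) (h2 : P n z = 0) :
    z = -1 := by
  by_contra hz1
  obtain ⟨h, hh⟩ := hm
  have hm2 : m = 2 * h := by omega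
  subst hm2
  rcases Nat.eq_zero_or_pos h with rfl | hpos
  · simp [P, B] at h1
  · obtain ⟨N, rfl⟩ : ∃ N, n = 2 * h + (N + 1) := ⟨n - 2 * h - 1, by omega⟩
    obtain ⟨hc, hz0, hzone, hY⟩ := even_root h hpos z h1 hz1
    have h3 := rec_sum (2 * h) (N + 1) z hc
    rw [h2, h1, zero_mul, mul_zero, zero_add] at h3
    have h4 := (mul_eq_zero.1 h3.symm).resolve_left (pow_ne_zero _ hc)
    have h5 : (1 - z) * z ^ (2 * h + 1) ≠ 0 :=
      mul_ne_zero (sub_ne_zero.2 (fun h => hzone h.symm)) (pow_ne_zero _ hz0)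
    have h6 := b_upper_even h N _ ((mul_eq_zero.1 h4).resolve_left h5)
    have hX : 4 * z ^ 2 / (1 + z ^ 2) ^ 2 = 4 * (z / (1 + z ^ 2)) ^ 2 := by
      field_simp
    refine Y_small h hpos _ ?_ hY
    rw [hX, norm_mul, norm_pow]
    have h8 : ‖(4 : ℂ)‖ = 4 := by norm_num
    rw [h8]
    have h9 : ‖z / (1 + z ^ 2)‖ ^ 2 ≤ ((2 * (h : ℝ) + 2) / (2 * (2 * h + 1))) ^ 2 :=
      pow_le_pow_left₀ (norm_nonneg _) h6 2
    have h11 : 4 * ((2 * (h : ℝ) + 2) / (2 * (2 * h + 1))) ^ 2 =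
        ((2 * h + 2) / (2 * h + 1)) ^ 2 := by
      field_simp
      ring
    rw [← h11]
    linarith

/-- **Main result.**  For `1 ≤ k ≤ n` the Pascalian polynomials `P_n` and `P_{n-k}` have no
common complex root other than `-1`. -/
theorem result (n k : ℕ) (hk : 1 ≤ k) (hkn : k ≤ n) (z : ℂ) (h1 : P n z = 0)
    (h2 : P (n - k) z = 0) : z = -1 := by
  rcases Nat.even_or_odd (n - k) with h | h
  · exact even_case (n - k) n h (by omega) z h2 h1
  · exact odd_case (n - k) n h (by omega) z h2 h1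

end Pool.Agent.Results.MP_454c72_al.NoCommonNontrivialRoot
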